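import Pool.Agent.EGF.StmtsV

set_option autoImplicit false

open Finset

namespace Pool.Agent.EGF.H90

theorem avs (h1 : Mx2Stmt) (h2 : WtsStmt) (h3 : CnvStmt) (h4 : PigStmt) : AvsStmt := by
  intro V _ k c g A B F N T m m' X0 X1 Y0 Y1 R S M ρ K κ E hA hB hM hM1 hρ hK hκ hET hT hm hm'
    hKρ hL hS hN hAm hBm hsA hsB
  obtain ⟨a0, a1, a2, a3⟩ := h2 V k c g A N T m X0 X1 R K κ hκ hT hN hAm hsA
  obtain ⟨b0, b1, b2, b3⟩ := h2 V k c g B N T m' Y0 Y1 S K κ hκ hT hN hBm hsB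
  have hi : 0 < M / 10 ^ 4 := by positivity
  have hi2 : 2 * (M / 10 ^ 4) ≤ M := by linarith
  have key : ∀ (u v : ℕ → V → ℝ), (∀ i < m, (∀ a ∈ A, 0 ≤ u i a) ∧ ∑ a ∈ A, u i a = 1) →
      (∀ j < m', (∀ b ∈ B, 0 ≤ v j b) ∧ ∑ b ∈ B, v j b = 1) →
      (∀ a ∈ A, (∑ i ∈ range m, u i a) * A.card ≤ K * m) →
      (∀ b ∈ B, (∑ j ∈ range m', v j b) * B.card ≤ K * m') →
      (M - 3 * (M / 10 ^ 4)) * (m * m') ≤
        ∑ i ∈ range m, ∑ j ∈ range m', ∑ p ∈ (A ×ˢ B) ∩ F, u i p.1 * v j p.2 :=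
    fun u v hu hv hu2 hv2 => h1 V V A B F M (M / 10 ^ 4) ρ K m m' u v hA hB hi hi2 hM1 hρ hK hKρ
      hL hm hm' hu hv hu2 hv2
  have hT0 : (0 : ℝ) < T := by exact_mod_cast hT
  -- inclusions
  have sX0 : ∀ i < m, X0 i ⊆ A := fun i hi => (hsA.h0 i hi).1
  have sR : ∀ i < m, ∀ x ∈ X0 i, R i x ⊆ A := fun i hi x hx =>
    ((hsA.hR i hi x hx).1).trans (hsA.h0 i hi).2.1
  have sY0 : ∀ j < m', Y0 j ⊆ B := fun j hj => (hsB.h0 j hj).1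
  have sS : ∀ j < m', ∀ y ∈ Y0 j, S j y ⊆ B := fun j hj y hy =>
    ((hsB.hR j hj y hy).1).trans (hsB.h0 j hj).2.1
  have cX0 : ∀ i < m, (X0 i).card = T := fun i hi => (hsA.h0 i hi).2.2.1
  have cY0 : ∀ j < m', (Y0 j).card = T := fun j hj => (hsB.h0 j hj).2.2.1
  have cR : ∀ i < m, ∀ x ∈ X0 i, (R i x).card = T := fun i hi x hx => (hsA.hR i hi x hx).2.1
  have cS : ∀ j < m', ∀ y ∈ Y0 j, (S j y).card = T := fun j hj y hy => (hsB.hR j hj y hy).2.1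
  have sat : ∀ A' ⊆ A, ∀ B' ⊆ B, A'.card = T → B'.card = T →
      ∑ a ∈ A', ∑ b ∈ B', ind F a b ≤ (1 + 1 / 1000) * M * ((T : ℝ) * T) := by
    intro A' hA' B' hB' cA cB
    have := hS A' hA' B' hB' (by rw [cA]; exact hET) (by rw [cB]; exact hET)
    rwa [cA, cB] at this
  -- the four functions
  set d : Fin 4 → ℕ → ℕ → ℝ := fun t i j => ![
    ∑ p ∈ (A ×ˢ B) ∩ F, wt0 (X0 i) T p.1 * wt0 (Y0 j) T p.2,
    ∑ p ∈ (A ×ˢ B) ∩ F, wt1 (X0 i) (R i) T p.1 * wt0 (Y0 j) T p.2,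
    ∑ p ∈ (A ×ˢ B) ∩ F, wt0 (X0 i) T p.1 * wt1 (Y0 j) (S j) T p.2,
    ∑ p ∈ (A ×ˢ B) ∩ F, wt1 (X0 i) (R i) T p.1 * wt1 (Y0 j) (S j) T p.2] t with hd
  have d0 : ∀ i j, d 0 i j = ∑ p ∈ (A ×ˢ B) ∩ F, wt0 (X0 i) T p.1 * wt0 (Y0 j) T p.2 :=
    fun _ _ => rfl
  have d1 : ∀ i j, d 1 i j = ∑ p ∈ (A ×ˢ B) ∩ F, wt1 (X0 i) (R i) T p.1 * wt0 (Y0 j) T p.2 :=
    fun _ _ => rfl
  have d2 : ∀ i j, d 2 i j = ∑ p ∈ (A ×ˢ B) ∩ F, wt0 (X0 i) T p.1 * wt1 (Y0 j) (S j) T p.2 :=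
    fun _ _ => rfl
  have d3 : ∀ i j, d 3 i j =
      ∑ p ∈ (A ×ˢ B) ∩ F, wt1 (X0 i) (R i) T p.1 * wt1 (Y0 j) (S j) T p.2 :=
    fun _ _ => rfl
  have cnv : ∀ i < m, ∀ j < m',
      d 0 i j * (T : ℝ) ^ 2 = ∑ x ∈ X0 i, ∑ y ∈ Y0 j, ind F x y ∧
      d 1 i j * (T : ℝ) ^ 3 = ∑ x ∈ X0 i, ∑ y ∈ Y0 j, ∑ w ∈ R i x, ind F w y ∧
      d 2 i j * (T : ℝ) ^ 3 = ∑ x ∈ X0 i, ∑ y ∈ Y0 j, ∑ z ∈ S j y, ind F x z ∧
      d 3 i j * (T : ℝ) ^ 4 =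
        ∑ x ∈ X0 i, ∑ y ∈ Y0 j, ∑ w ∈ R i x, ∑ z ∈ S j y, ind F w z := by
    intro i hi' j hj
    exact h3 V V A (X0 i) B (Y0 j) (R i) (S j) F T hT (sX0 i hi') (sR i hi') (sY0 j hj)
      (sS j hj)
  have up : ∀ t, ∀ i < m, ∀ j < m', d t i j ≤ (1 + 1 / 1000) * M := by
    intro t i hi' j hj
    obtain ⟨e0, e1, e2, e3⟩ := cnv i hi' j hj
    have hc : ((X0 i).card : ℝ) = T := by rw [cX0 i hi']
    have hc' : ((Y0 j).card : ℝ) = T := by rw [cY0 j hj]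
    fin_cases t
    · show d 0 i j ≤ _
      have : d 0 i j * (T : ℝ) ^ 2 ≤ (1 + 1 / 1000) * M * (T : ℝ) ^ 2 := by
        rw [e0]
        have := sat (X0 i) (sX0 i hi') (Y0 j) (sY0 j hj) (cX0 i hi') (cY0 j hj)
        calc _ ≤ (1 + 1 / 1000) * M * ((T : ℝ) * T) := this
          _ = _ := by ring
      exact le_of_mul_le_mul_right this (by positivity)
    · show d 1 i j ≤ _
      have : d 1 i j * (T : ℝ) ^ 3 ≤ (1 + 1 / 1000) * M * (T : ℝ) ^ 3 := by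
        rw [e1]
        calc _ ≤ ∑ x ∈ X0 i, (1 + 1 / 1000) * M * ((T : ℝ) * T) := by
              refine sum_le_sum fun x hx => ?_
              rw [sum_comm]
              exact sat (R i x) (sR i hi' x hx) (Y0 j) (sY0 j hj) (cR i hi' x hx) (cY0 j hj)
          _ = _ := by rw [sum_const, nsmul_eq_mul, hc]; ring
      exact le_of_mul_le_mul_right this (by positivity)
    · show d 2 i j ≤ _
      have : d 2 i j * (T : ℝ) ^ 3 ≤ (1 + 1 / 1000) * M * (T : ℝ) ^ 3 := by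
        rw [e2, sum_comm]
        calc _ ≤ ∑ y ∈ Y0 j, (1 + 1 / 1000) * M * ((T : ℝ) * T) := by
              refine sum_le_sum fun y hy => ?_
              exact sat (X0 i) (sX0 i hi') (S j y) (sS j hj y hy) (cX0 i hi') (cS j hj y hy)
          _ = _ := by rw [sum_const, nsmul_eq_mul, hc']; ring
      exact le_of_mul_le_mul_right this (by positivity)
    · show d 3 i j ≤ _
      have : d 3 i j * (T : ℝ) ^ 4 ≤ (1 + 1 / 1000) * M * (T : ℝ) ^ 4 := by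
        rw [e3]
        calc _ ≤ ∑ x ∈ X0 i, ∑ y ∈ Y0 j, (1 + 1 / 1000) * M * ((T : ℝ) * T) := by
              refine sum_le_sum fun x hx => sum_le_sum fun y hy => ?_
              exact sat (R i x) (sR i hi' x hx) (S j y) (sS j hj y hy) (cR i hi' x hx)
                (cS j hj y hy)
          _ = _ := by
            rw [sum_const, sum_const, nsmul_eq_mul, nsmul_eq_mul, hc, hc']; ring
      exact le_of_mul_le_mul_right this (by positivity)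
  have lo : ∀ t, (M - 3 * (M / 10 ^ 4)) * (m * m') ≤
      ∑ i ∈ range m, ∑ j ∈ range m', d t i j := by
    intro t
    fin_cases t
    · exact key (fun i => wt0 (X0 i) T) (fun j => wt0 (Y0 j) T) a0 b0 a2 b2
    · exact key (fun i => wt1 (X0 i) (R i) T) (fun j => wt0 (Y0 j) T) a1 b0 a3 b2
    · exact key (fun i => wt0 (X0 i) T) (fun j => wt1 (Y0 j) (S j) T) a0 b1 a2 b3
    · exact key (fun i => wt1 (X0 i) (R i) T) (fun j => wt1 (Y0 j) (S j) T) a1 b1 a3 b3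
  obtain ⟨i, hi', j, hj, h⟩ := h4 m m' d M hM hm hm' up lo
  obtain ⟨e0, e1, e2, e3⟩ := cnv i hi' j hj
  refine ⟨i, hi', j, hj, ?_, ?_, ?_, ?_⟩
  · rw [← e0]; exact mul_le_mul_of_nonneg_right (h 0) (by positivity)
  · rw [← e1]; exact mul_le_mul_of_nonneg_right (h 1) (by positivity)
  · rw [← e2]; exact mul_le_mul_of_nonneg_right (h 2) (by positivity)
  · rw [← e3]; exact mul_le_mul_of_nonneg_right (h 3) (by positivity)

end Pool.Agent.EGF.H90
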