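import Pool.Agent.EGF.StmtsU

/-!
# Squad EGF, row BON (Bonferroni)
-/

set_option autoImplicit false

namespace Pool.Agent.EGF.H90

/-- row BON -/
theorem bon : BonStmt := by
  intro q r hq hq1
  constructor
  · have h := one_add_mul_le_pow (a := -q) (by linarith) r
    have h1 : (1 : ℝ) + -q = 1 - q := by ring
    have h2 : (1 : ℝ) + r * -q = 1 - r * q := by ring
    rw [h1, h2] at h
    exact h
  · induction r with
    | zero => simp
    | succ r ih =>
      have h1 : (1 - q) ^ (r + 1) ≤ (1 - r * q + (r : ℝ) * (r - 1) / 2 * q ^ 2) * (1 - q) := by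
        rw [pow_succ]
        exact mul_le_mul_of_nonneg_right ih (by linarith)
      have h2 : 0 ≤ (r : ℝ) * (r - 1) := by
        rcases Nat.eq_zero_or_pos r with h | h
        · rw [h]; simp
        · have : (1 : ℝ) ≤ r := by exact_mod_cast h
          exact mul_nonneg (by linarith) (by linarith)
      have h3 : 0 ≤ (r : ℝ) * (r - 1) * q ^ 3 := mul_nonneg h2 (pow_nonneg hq 3)
      push_cast
      nlinarith [h1, h3]

end Pool.Agent.EGF.H90
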